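import Mathlib
import Pool.Agent.R234.VT.Defs
import Pool.Agent.R234.VT.B

/-!
# The exceptional set of a plurisubharmonic function is Lebesgue null

The theorem `result` answers Q1 of `MP_725b87_an` in the affirmative.  The definitions are in
`Pool.Agent.R234.VT.Defs`.
-/

set_option autoImplicit false

open MeasureTheory Pool.Agent.R234.VT

/-- For a plurisubharmonic function `φ` on an open subset `Ω` of `ℂⁿ`, the set of the points of `Ω`
at which `φ` admits no differential test from above has Lebesgue measure zero. -/
theorem Pool.Agent.Results.MP_725b87_an.LebesgueNull.result (n : ℕ) (Ω : Set (Cn n))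
    (hΩ : IsOpen Ω) (φ : Cn n → EReal) (hφ : IsPSH Ω φ) : volume (exceptional Ω φ) = 0 :=
  null_volume hΩ hφ volume
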